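import Pool.Agent.Helper38.IA.StN

/-!
Project IA, part N, module NLA: locality of the events for the edge sums.
-/

set_option autoImplicit false

namespace Pool.Agent.Helper16.IA38

open Finset Pool.Agent.Helper93.IA Pool.Agent.Helper17.IAN Pool.Agent.Helper38.IA

private lemma chg {B1 C1 B0 C0 : Prop} (h : ¬ ((¬ B1 ∧ ¬ C1) ↔ (¬ B0 ∧ ¬ C0))) :
    ¬ (B1 ↔ B0) ∨ ¬ (C1 ↔ C0) := by
  by_contra hc
  push Not at hc
  exact h (by rw [hc.1, hc.2])

private lemma toF {γ : Type} [DecidableEq γ] (o o' : Option γ) :
    (o.toFinset ∪ o'.toFinset).card ≤ 2 := by
  have h : ∀ o : Option γ, o.toFinset.card ≤ 1 := by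
    intro o
    cases o <;> simp
  calc (o.toFinset ∪ o'.toFinset).card ≤ o.toFinset.card + o'.toFinset.card := card_union_le _ _
    _ ≤ 1 + 1 := Nat.add_le_add (h o) (h o')
    _ = 2 := rfl

theorem hNLA : StNCH → StNLA := by
  intro hN α β γ _ _ _ _ _ n hα hβ
  refine ⟨fun a b => ?_, fun b c => ?_, fun c a => ?_⟩
  · refine ⟨({a} ×ˢ univ) ∪ (univ ×ˢ {b}), ?_, ?_⟩
    · refine (card_union_le _ _).trans ?_
      rw [card_product, card_product, card_singleton, card_singleton, card_univ, card_univ, hα, hβ]
      omega
    · rintro σ ⟨a0, b0⟩
      refine ⟨fun u => ⟨{u}, by simp, fun c hc => ?_⟩, fun he => ?_⟩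
      · obtain ⟨-, hB, hC, -⟩ := hN α β γ σ a0 b0 u
        rw [mem_singleton]
        rcases chg hc with h | h
        · exact (hB b c h).1
        · exact (hC c a h).1
      · have hea : a ≠ a0 := by
          rintro rfl
          exact he (mem_union_left _ (by simp))
        have heb : b ≠ b0 := by
          rintro rfl
          exact he (mem_union_right _ (by simp))
        refine ⟨(σ (a0, b)).toFinset ∪ (σ (a, b0)).toFinset, toF _ _, fun u c hc => ?_⟩
        obtain ⟨-, hB, hC, -, -, h1, h2⟩ := hN α β γ σ a0 b0 u
        rcases chg hc with h | h
        · refine mem_union_left _ ?_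
          rcases (hB b c h).2 with h' | h'
          · exact absurd h' heb
          · rw [Option.mem_toFinset, (h1 b h').2]
            exact rfl
        · refine mem_union_right _ ?_
          rcases (hC c a h).2 with h' | h'
          · exact absurd h' hea
          · rw [Option.mem_toFinset, (h2 a h').2]
            exact rfl
  · refine ⟨univ ×ˢ {b}, ?_, ?_⟩
    · rw [card_product, card_singleton, card_univ, hα]
      omega
    · rintro σ ⟨a0, b0⟩
      refine ⟨fun u => ?_, fun he => ?_⟩
      · obtain ⟨hA, hB, hC, -, huq, -⟩ := hN α β γ σ a0 b0 u
        have key : ∀ a, ¬ ((¬ covC (Function.update σ (a0, b0) (some u)) c a ∧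
              ¬ covA (Function.update σ (a0, b0) (some u)) a b) ↔
            (¬ covC (Function.update σ (a0, b0) none) c a ∧
              ¬ covA (Function.update σ (a0, b0) none) a b)) →
            a = a0 ∨ used (Function.update σ (a0, b0) none) a b0 u := by
          intro a ha
          rcases chg ha with h | h
          · exact (hC c a h).2
          · rcases hA a b h with h' | h'
            · exact Or.inl h'.1
            · exact Or.inr h'.2
        by_cases hex : ∃ a1, used (Function.update σ (a0, b0) none) a1 b0 u
        · obtain ⟨a1, ha1⟩ := hex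
          refine ⟨{a0, a1}, card_le_two, fun a ha => ?_⟩
          rcases key a ha with h | h
          · rw [h]; simp
          · rw [huq a a1 h ha1]; simp
        · refine ⟨{a0}, by simp, fun a ha => ?_⟩
          rcases key a ha with h | h
          · rw [h]; simp
          · exact absurd ⟨a, h⟩ hex
      · have heb : b ≠ b0 := by
          rintro rfl
          exact he (by simp)
        refine ⟨(some c).toFinset ∪ (σ (a0, b)).toFinset, toF _ _, fun u a ha => ?_⟩
        obtain ⟨hA, hB, hC, -, -, h1, h2⟩ := hN α β γ σ a0 b0 u
        rcases chg ha with h | h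
        · refine mem_union_left _ ?_
          rw [(hC c a h).1]
          simp
        · refine mem_union_right _ ?_
          rcases hA a b h with h' | h'
          · rcases h'.2 with h'' | h''
            · exact absurd h'' heb
            · rw [Option.mem_toFinset, (h1 b h'').2]
              exact rfl
          · exact absurd h'.1 heb
  · refine ⟨{a} ×ˢ univ, ?_, ?_⟩
    · rw [card_product, card_singleton, card_univ, hβ]
      omega
    · rintro σ ⟨a0, b0⟩
      refine ⟨fun u => ?_, fun he => ?_⟩
      · obtain ⟨hA, hB, hC, huq, -⟩ := hN α β γ σ a0 b0 u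
        have key : ∀ b, ¬ ((¬ covA (Function.update σ (a0, b0) (some u)) a b ∧
              ¬ covB (Function.update σ (a0, b0) (some u)) b c) ↔
            (¬ covA (Function.update σ (a0, b0) none) a b ∧
              ¬ covB (Function.update σ (a0, b0) none) b c)) →
            b = b0 ∨ used (Function.update σ (a0, b0) none) a0 b u := by
          intro b hb
          rcases chg hb with h | h
          · rcases hA a b h with h' | h'
            · exact h'.2
            · exact Or.inl h'.1
          · exact (hB b c h).2
        by_cases hex : ∃ b1, used (Function.update σ (a0, b0) none) a0 b1 u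
        · obtain ⟨b1, hb1⟩ := hex
          refine ⟨{b0, b1}, card_le_two, fun b hb => ?_⟩
          rcases key b hb with h | h
          · rw [h]; simp
          · rw [huq b b1 h hb1]; simp
        · refine ⟨{b0}, by simp, fun b hb => ?_⟩
          rcases key b hb with h | h
          · rw [h]; simp
          · exact absurd ⟨b, h⟩ hex
      · have hea : a ≠ a0 := by
          rintro rfl
          exact he (by simp)
        refine ⟨(some c).toFinset ∪ (σ (a, b0)).toFinset, toF _ _, fun u b hb => ?_⟩
        obtain ⟨hA, hB, hC, -, -, h1, h2⟩ := hN α β γ σ a0 b0 u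
        rcases chg hb with h | h
        · refine mem_union_right _ ?_
          rcases hA a b h with h' | h'
          · exact absurd h'.1 hea
          · rw [Option.mem_toFinset, (h2 a (h'.1 ▸ h'.2)).2]
            exact rfl
        · refine mem_union_left _ ?_
          rw [(hB b c h).1]
          simp

end Pool.Agent.Helper16.IA38
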